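import Pool.Agent.H90.CNY.Stmts

/-!
# Row YT1: the conductors of covers
-/

set_option autoImplicit false

namespace Pool.CND

theorem yt1_thm (h1 : S_YLO) : S_YT1 := by
  intro p k G _ _ _ hp hk c hc
  obtain ⟨L, i1, i2, ρ, t, hcov, P, hP, hcon⟩ := hc
  rcases h1 p k L G P ρ c hp hk hcov.inj hcon with h | ⟨W, I, C, l, _, _, _, _, _, hD⟩
  · exact Or.inl h
  · exact Or.inr ⟨W, I, C, hD⟩

end Pool.CND
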